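import Mathlib

/-!
# MP_322323_co: the conjectured value of `Δ₂Sq(n)` fails for `n = 22`

For the partial word `0111110111◇◇1011111011` of length `22`, with two holes, filling the second hole
by `0` decreases the number of distinct squares from `23` to `8`. So `Δ₂Sq(22) ≥ 15`, while
`⌊7 * 21 / 10⌋ = 14`.
-/

set_option autoImplicit false

namespace Pool.Agent.Results.MP_322323_co.LengthTwentyTwo

/-- `u ⊂ v` for a binary partial word `u` and a full word `v`: the lengths are equal and `v` carries
the letter of `u` at each position where `u` is not a hole. Holes are `none`. -/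
def Sub (u : List (Option Bool)) (v : List Bool) : Prop :=
  List.Forall₂ (fun a b => a = none ∨ a = some b) u v

/-- The nonempty full words `x` such that some factor `u` of `w` satisfies `u ⊂ x x`. -/
def SqSet (w : List (Option Bool)) : Set (List Bool) :=
  {x | x ≠ [] ∧ ∃ u, u <:+: w ∧ Sub u (x ++ x)}

/-- The number of distinct squares of a binary partial word. -/
noncomputable def Sq (w : List (Option Bool)) : ℕ := (SqSet w).ncard

/-- `w'` is obtained from `w` by replacing exactly one hole by a letter. -/
def Strengthening (w w' : List (Option Bool)) : Prop :=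
  ∃ (p s : List (Option Bool)) (b : Bool), w = p ++ none :: s ∧ w' = p ++ some b :: s

/-- The set of all differences `Sq(w) - Sq(w')` where `w` is a binary partial word of length `n`
with `h` holes and `w'` a strengthening of `w`; its maximum is `Δ_hSq(n)`. -/
def Differences (h n : ℕ) : Set ℤ :=
  {d | ∃ w w', w.length = n ∧ w.count none = h ∧ Strengthening w w' ∧ d = (Sq w : ℤ) - Sq w'}

/-! ### Computation of `Sq` -/

/-- `v` is compatible with a prefix of `u`. -/
def pre : List (Option Bool) → List Bool → Bool
  | _, [] => true
  | [], _ :: _ => false
  | a :: u, b :: v => (a == none || a == some b) && pre u v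

theorem pre_iff (u : List (Option Bool)) (v : List Bool) :
    pre u v = true ↔ ∃ u', u' <+: u ∧ Sub u' v := by
  induction u generalizing v with
  | nil =>
    cases v with
    | nil => simp [pre, Sub]
    | cons b v => simp [pre, Sub]
  | cons a u ih =>
    cases v with
    | nil =>
      simp only [pre, true_iff]
      exact ⟨[], List.nil_prefix, List.Forall₂.nil⟩
    | cons b v =>
      simp only [pre, Bool.and_eq_true, Bool.or_eq_true, beq_iff_eq, ih]
      constructor
      · rintro ⟨h1, u', h2, h3⟩
        exact ⟨a :: u', by simpa using h2, List.Forall₂.cons h1 h3⟩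
      · rintro ⟨u', h2, h3⟩
        cases h3 with
        | cons h4 h5 =>
          rename_i a' u''
          rw [List.cons_prefix_cons] at h2
          obtain ⟨rfl, h2⟩ := h2
          exact ⟨h4, u'', h2, h5⟩

/-- All suffixes. -/
def suf : List (Option Bool) → List (List (Option Bool))
  | [] => [[]]
  | a :: u => (a :: u) :: suf u

theorem mem_suf (u t : List (Option Bool)) : t ∈ suf u ↔ t <:+ u := by
  induction u with
  | nil => simp [suf]
  | cons a u ih => simp [suf, ih, List.suffix_cons_iff]

/-- The test for membership in `SqSet w`. -/
def check (w : List (Option Bool)) (x : List Bool) : Bool :=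
  !x.isEmpty && (suf w).any fun t => pre t (x ++ x)

theorem check_iff (w : List (Option Bool)) (x : List Bool) : check w x = true ↔ x ∈ SqSet w := by
  simp only [check, SqSet, Bool.and_eq_true, Bool.not_eq_true', List.isEmpty_eq_false_iff,
    List.any_eq_true, mem_suf, pre_iff, Set.mem_ofPred_eq]
  refine and_congr_right fun _ => ?_
  constructor
  · rintro ⟨t, h1, u, h2, h3⟩
    exact ⟨u, h2.isInfix.trans h1.isInfix, h3⟩
  · rintro ⟨u, ⟨p, s, rfl⟩, h3⟩
    exact ⟨u ++ s, ⟨p, by simp⟩, u, List.prefix_append _ _, h3⟩

/-- All binary words of length `n`. -/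
def words : ℕ → List (List Bool)
  | 0 => [[]]
  | n + 1 => (words n).flatMap fun x => [false :: x, true :: x]

theorem mem_words (n : ℕ) (x : List Bool) : x ∈ words n ↔ x.length = n := by
  induction n generalizing x with
  | zero => simp [words]
  | succ n ih =>
    cases x with
    | nil => simp [words]
    | cons b x =>
      simp only [words, List.mem_flatMap, ih, List.mem_cons, List.cons.injEq, List.not_mem_nil,
        or_false, List.length_cons, Nat.add_right_cancel_iff]
      constructor
      · rintro ⟨y, hy, ⟨-, rfl⟩ | ⟨-, rfl⟩⟩ <;> exact hy
      · intro h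
        refine ⟨x, h, ?_⟩
        cases b <;> simp

/-- The candidates of length at most `11` that pass the test. -/
def squares (w : List (Option Bool)) : List (List Bool) :=
  ((List.range 12).flatMap words).filter (check w)

theorem sqSet_eq {w : List (Option Bool)} (hw : w.length = 22) :
    SqSet w = {x | x ∈ squares w} := by
  ext x
  simp only [squares, List.mem_filter, List.mem_flatMap, List.mem_range, mem_words, check_iff,
    Set.mem_ofPred_eq]
  constructor
  · intro hx
    refine ⟨⟨x.length, ?_, rfl⟩, hx⟩
    obtain ⟨-, u, hu, hs⟩ := hx
    have h1 := hu.length_le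
    have h2 := hs.length_eq
    rw [List.length_append] at h2
    omega
  · exact fun h => h.2

theorem sq_eq {w : List (Option Bool)} (hw : w.length = 22) (l : List (List Bool))
    (h : squares w = l) (hl : l.Nodup) : Sq w = l.length := by
  unfold Sq
  rw [sqSet_eq hw, h]
  have : {x | x ∈ l} = (l.toFinset : Set (List Bool)) := by ext; simp
  rw [this, Set.ncard_coe_finset, List.toFinset_card_of_nodup hl]

/-- `0111110111◇◇1011111011` -/
def w₀ : List (Option Bool) :=
  [some false, some true, some true, some true, some true, some true, some false, some true,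
    some true, some true, none, none, some true, some false, some true, some true, some true,
    some true, some true, some false, some true, some true]

/-- `0111110111◇01011111011` -/
def w₁ : List (Option Bool) :=
  [some false, some true, some true, some true, some true, some true, some false, some true,
    some true, some true, none, some false, some true, some false, some true, some true, some true,
    some true, some true, some false, some true, some true]

theorem squares₀ : ∃ l, l = squares w₀ ∧ l.Nodup ∧ l.length = 23 := ⟨_, rfl, by
  have h : (fun l : List (List Bool) => l.Nodup ∧ l.length = 23) (squares w₀) := by decide +kernel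
  exact h⟩

theorem squares₁ : ∃ l, l = squares w₁ ∧ l.Nodup ∧ l.length = 8 := ⟨_, rfl, by
  have h : (fun l : List (List Bool) => l.Nodup ∧ l.length = 8) (squares w₁) := by decide +kernel
  exact h⟩

/-- A difference `15` occurs for `n = 22` and two holes, so it is not true that for every `n ≥ 8`
the number `⌊7 (n - 1) / 10⌋` is the maximum `Δ₂Sq(n)` of the differences. -/
theorem result : (15 : ℤ) ∈ Differences 2 22 ∧
    ¬ ∀ n : ℕ, 8 ≤ n → IsGreatest (Differences 2 n) ((7 * (n - 1) / 10 : ℕ) : ℤ) := by
  have h : (15 : ℤ) ∈ Differences 2 22 := by
    refine ⟨w₀, w₁, rfl, by decide, ⟨w₀.take 11, w₀.drop 12, false, rfl, rfl⟩, ?_⟩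
    obtain ⟨l₀, e₀, d₀, h₀⟩ := squares₀
    obtain ⟨l₁, e₁, d₁, h₁⟩ := squares₁
    rw [sq_eq rfl l₀ e₀.symm d₀, sq_eq rfl l₁ e₁.symm d₁, h₀, h₁]
    norm_num
  refine ⟨h, fun hall => ?_⟩
  have := (hall 22 (by norm_num)).2 h
  norm_num at this

end Pool.Agent.Results.MP_322323_co.LengthTwentyTwo
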